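import Pool.Agent.Helper74.NM.St

/-! # NM, module COM: completeness of the one-sided simulation -/

set_option autoImplicit false

namespace Pool.Agent.Helper72.NM

open Pool.Agent.Helper74 Pool.Agent.Helper74.NM

/-- A gadget can be skipped. -/
private lemma gd_skip (hGA : StGA) (hGB : StGB) {W : Type} (rk : W → Bool) (g : W × List W)
    (σ : List (Lt W)) : Tr (P rk) op (gd rk g) σ σ := by
  rw [gd, tr_append]
  exact ⟨.x g :: σ, (hGA W rk g σ).1, (hGB W rk g σ).1⟩

private lemma flat_skip (hGA : StGA) (hGB : StGB) {W : Type} (rk : W → Bool)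
    (m : List (W × List W)) (σ : List (Lt W)) : Tr (P rk) op (m.flatMap (gd rk)) σ σ := by
  induction m with
  | nil => exact (tr_nil _ _ σ σ).2 rfl
  | cons g m ih =>
    rw [List.flatMap_cons, tr_append]
    exact ⟨σ, gd_skip hGA hGB rk g σ, ih⟩

/-- The gadget of the rule `(X, γ)` makes the step. -/
private lemma gd_step (hGA : StGA) (hGB : StGB) {W : Type} (rk : W → Bool) (X : W) (γ s : List W) :
    Tr (P rk) op (gd rk (X, γ)) (N rk false (X :: s)) (N rk true (γ ++ s)) := by
  rw [gd, tr_append]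
  refine ⟨cells rk s, ?_, ?_⟩
  · have h := (hGA W rk (X, γ) (cells rk s)).2.1
    have e : N rk false (X :: s) = (Zs rk (X, γ)).map .o ++ cells rk s := by
      simp [N, Zs, cells]
    rw [e]; exact h
  · have h := (hGB W rk (X, γ) (cells rk s)).2.1
    have e : N rk true (γ ++ s) = (Us rk (X, γ)).map .o ++ cells rk s := by
      rw [us_map, N, N, cells_append]; rfl
    rw [e]; exact h

private lemma blk_step (hGA : StGA) (hGB : StGB) {W : Type} (rk : W → Bool)
    (l : List (W × List W)) (X : W) (γ s : List W) (hm : (X, γ) ∈ l) :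
    Tr (P rk) op (blk rk l) (cells rk (X :: s)) (cells rk (γ ++ s)) := by
  obtain ⟨l₁, l₂, rfl⟩ := List.append_of_mem hm
  rw [blk, tr_cons]
  refine Or.inl ⟨trivial, ?_⟩
  rw [tr_append]
  refine ⟨N rk true (γ ++ s), ?_, ?_⟩
  · rw [List.flatMap_append, tr_append]
    refine ⟨N rk false (X :: s), flat_skip hGA hGB rk l₁ _, ?_⟩
    rw [List.flatMap_cons, tr_append]
    exact ⟨_, gd_step hGA hGB rk X γ s, flat_skip hGA hGB rk l₂ _⟩
  · rw [tr_cons]
    refine Or.inr ⟨.o (.b true), cells rk (γ ++ s), rfl, rfl, ?_⟩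
    exact (tr_nil _ _ _ _).2 rfl

/-- Module COM. -/
theorem hCOM (hGA : StGA) (hGB : StGB) : StCOM := by
  intro α W rk l s w h
  induction h with
  | nil => exact (tr_nil _ _ _ _).2 rfl
  | step a X γ s w hm _ ih =>
    rw [List.flatMap_cons, tr_append]
    exact ⟨_, blk_step hGA hGB rk (l a) X γ s hm, ih⟩

end Pool.Agent.Helper72.NM
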